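import Pool.Agent.J4H97.PM2.Main

set_option autoImplicit false

/-!
# A regular graded Clifford algebra of global dimension four with exactly two point modules

over every algebraically closed field of characteristic different from `2` and `5` (and, more
generally, over every field of such a characteristic with a square root `i` of `-1`).

The algebra has generators `z, x, w, y` and the six relations

* `zw + wz = 0`, `xw + wx = (xz + zx) - (2 + 2i) w²`,
* `yz + zy = -i (xz + zx) - 2 w²`, `yw + wy = i (xz + zx) + 2i z² + 4 w²`,
* `x² = -(3 + 2i) z² - (1 - 2i) w²`, `y² = -2 z² - (2 - 2i) w²`.

The corresponding web of quadrics in `P³` is spanned by `xy`, `xz + xw - i yz + i yw`,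
`z² + 2i yw - (3 + 2i) x² - 2 y²` and `w² + 2i xz - 2 xw + 2 yw - (1 - 2i) x² - (2 - 2i) y²`. It has
no base points and contains a single quadric of rank at most two, namely `xy`, and this point counts
ten times. It was found as follows. Let a web contain the quadric `xy` and let `K` be the line
`x = y = 0`. If `xy` is not an isolated simple solution, there is a pencil of quadrics in the web which
contain `K`, and the other quadrics of rank at most two correspond to the intersections of two plane
cubics through a point `P`, outside `P`; the lines `u = 0` and `v = 0` through `P` are tangent to
both cubics. So we need two cubics of a pencil whose only base point is `P`, counted nine times, such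
that two of the four tangents from `P` are the same for both cubics. Up to isomorphism there is just
one such pencil in which `P` is not a flex, namely
`t² w - t r² - w² r + s (t w r - w³ - r³) = 0`, with `P = (1 : 0 : 0)` (the rational elliptic surface
with a fibre of type `I₉`), and in this pencil there is up to isomorphism one pair of cubics with the
property, `s = -1 ± i`, with the tangents `w = (1 ± i) r / 2`. In characteristic `5` the web has a
base point.

The point modules are found directly from the equations; from `C = t² w - t r² - w² r = 0` and
`D = t w r - w³ - r³ = 0` we get `w⁶ = 0`. The squares of `z`, `w` and the anticommutators are central,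
by the Jacobi identity, and the algebra is free of rank `16` over the polynomial ring they generate.
The Koszul complex is exact because `z², w²` is a regular sequence and the middle pairing (an
explicit `6 × 6` matrix over the Gaussian integers) is invertible if `10 ≠ 0`; the definitions and the
general parts of the homological algebra are those of the starting result `NineteenPoints`.
-/

universe u

namespace Pool.Agent.Results.MP_a6a2ff_al.TwoPoints

open Pool.Agent.W506.PM

/-- Let `k` be a field in which `10 ≠ 0` and `-1` is a square; for example any algebraically closed
field of characteristic different from `2` and `5`. There are four symmetric matrices `M_1, ..., M_4`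
such that in the algebra `A(1; M_1, ..., M_4)` with the relations
`x_i x_j + x_j x_i = sum_l (M_l)_ij y_l` the elements `y_l` are central (so it is a graded Clifford
algebra, and a graded skew Clifford algebra with all `mu_ij = 1`), and this algebra is a quadratic
algebra, is Artin-Schelter regular of global dimension four, and has exactly two isomorphism classes
of point modules. -/
theorem result (k : Type u) [Field k] (h10 : (10 : k) ≠ 0) (hi : ∃ i : k, i ^ 2 = -1) :
    ∃ M : Fin 4 → Matrix (Fin 4) (Fin 4) k,
      (∀ (l : Fin 4) (a : GAlg k (fun _ _ => 1) M),
        gy k (fun _ _ => 1) M l * a = a * gy k (fun _ _ => 1) M l) ∧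
      IsGSCA k (fun _ _ => 1) M ∧ IsQuadratic (ggr k (fun _ _ => 1) M) ∧
      IsASRegular (ggr k (fun _ _ => 1) M) 4 ∧
      Nat.card (PointClasses (ggr k (fun _ _ => 1) M)) = 2 := by
  obtain ⟨i, hi⟩ := hi
  let φ := Pool.Agent.J4H97.PM2.phi i (by rw [← sq]; exact hi)
  have h2 : (2 : k) ≠ 0 := by
    intro h
    apply h10
    have : (10 : k) = 2 * 5 := by norm_num
    rw [this, h, zero_mul]
  have h5 : (2 + 4 * Pool.Agent.J4H97.PM2.im φ : k) ≠ 0 := by
    intro h
    apply h10
    have hI2 := Pool.Agent.J4H97.PM2.im_sq φ
    have h20 : (2 : k) * 10 = 0 := by
      linear_combination (2 - 4 * Pool.Agent.J4H97.PM2.im φ) * h + 16 * hI2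
    exact (mul_eq_zero.1 h20).resolve_left h2
  exact ⟨Pool.Agent.J4H97.PM2.MM φ,
    fun l a => (Pool.Agent.J4H97.PM2.gy_mem_quad φ h2 h5 l a).eq,
    Pool.Agent.J4H97.PM2.main φ h10⟩

end Pool.Agent.Results.MP_a6a2ff_al.TwoPoints
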